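import Pool.Agent.Q92.SD.Defs
import Pool.Agent.Q5.BR.Gen

/-! Families of extension fields and the product of the defects: definitions. -/

set_option autoImplicit false
set_option linter.unusedSectionVars false

namespace Pool.Agent.Q92.SF

open NumberField IsDedekindDomain Pool.Agent.Q20.RS Pool.Agent.Q20.SI Pool.Agent.Q92.SD

/-- finitely many finite extensions `E_j` of `F` in `F̄` and integers `n_j` -/
structure FieldFam (F : Type) [Field F] [NumberField F] : Type 1 where
  /-- the indices -/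
  ι : Type
  [fin : Fintype ι]
  /-- the fields -/
  E : ι → Q20.RS.Sub F
  le : ∀ j, base F ≤ E j
  fe : ∀ j, FinExt (E j)
  /-- the integers -/
  n : ι → ℤ

attribute [instance] FieldFam.fin

section
variable {F : Type} [Field F] [NumberField F] (𝔈 : FieldFam F)

/-- for each `j` there is a prime `p` such that the prime-to-`p` part of `N` divides all local degrees of
`E_j` above the primes in `S` -/
def FieldFam.Large (S : Finset ℕ) (N : ℕ) : Prop :=
  ∀ j, ∃ p : ℕ, p.Prime ∧ ∀ (M : Type) [Field M] [NumberField M] [Algebra F M],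
    Nonempty (M ≃ₐ[F] 𝔈.E j) → LocIn S (fun _ => {d | ordCompl[p] N ∣ d}) M

/-- `∏_j d_σ(Ψ|E_j)^{n_j} = 1` at all sufficiently large levels, for all the characters `Ψ` of
`Gal(F̄/F)` given by the character `χ` of `Gal(K/F)` and an embedding of `K` in `F̄` -/
def FieldFam.RelAt {K : Type} [Field K] [NumberField K] [Algebra F K] (χ : (K ≃ₐ[F] K) →* ℂˣ)
    (σ : ℂ ≃+* ℂ) : Prop :=
  ∀ (j : K →ₐ[F] AlgebraicClosure F) (Ψ : RL.Lin (base F)),
    (∀ (y : K ≃ₐ[F] K) (g : (base F).fixingSubgroup),
      (∀ x : K, j (y x) = (g : Gal(AlgebraicClosure F/F)) (j x)) → cf χ y = Ψ.fn g) →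
    RL.Eventually fun ℓ : Lvl F => ∏ i, defct ℓ σ (Ψ.res (𝔈.le i)).fn ^ 𝔈.n i = 1

end

section
variable (F : Type) [Field F] [NumberField F]

/-- `P` follows from `Q1` for the cyclic data over the finite extensions `E` of `F` whose local degrees
above `q ∈ S` belong to `D q`, whenever `D q` is closed under positive multiples and has no common divisor
greater than `1` -/
def LocSuf (S : Finset ℕ) (P : Prop) : Prop :=
  ∀ D : ℕ → Set ℕ, (∀ q ∈ S, ∀ d ∈ D q, ∀ n : ℕ, 0 < n → d * n ∈ D q) →
    (∀ q ∈ S, ∀ g : ℕ, (∀ d ∈ D q, g ∣ d) → g = 1) →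
    (∀ (E : Type) [Field E] [NumberField E] [Algebra F E], LocIn S D E → Q1Cyc E) → P

/-- `P` follows from `Q1` for the cyclic data over the extensions `E` of `F` of degree divisible by `p ^ k`
which are generated by `p`-th roots of products of primes in `T`, `p = p₁, p₂`, whenever `T` is an infinite
set of primes and `p₁ ≠ p₂` are primes -/
def RadSuf (P : Prop) : Prop :=
  ∀ (p₁ p₂ k : ℕ) (T : Set ℕ), p₁.Prime → p₂.Prime → p₁ ≠ p₂ → (∀ l ∈ T, l.Prime) →
    T.Infinite →
    (∀ (E : Type) [Field E] [NumberField E] [Algebra F E] (p : ℕ), p = p₁ ∨ p = p₂ →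
      Q5.BR.IsRadical T p F E → p ^ k ∣ Module.finrank F E → Q1Cyc E) → P

end

end Pool.Agent.Q92.SF
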