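import Pool.Agent.Q92.SF.Defs
import Pool.Agent.Q92.SD.Form
import Pool.Agent.Q92.SD.Laws

/-! Families of extension fields and the product of the defects. -/

set_option autoImplicit false
set_option linter.unusedSectionVars false

namespace Pool.Agent.Q92.SF

open NumberField IsDedekindDomain Pool.Agent.Q20.RS Pool.Agent.Q20.SI Pool.Agent.Q92.SD
  Pool.Agent.Q5.BR
open Pool.Agent.Q20.RS.RL (StarkEq)

section
variable {F : Type} [Field F] [NumberField F]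

theorem starkEq_iff_defct {ψ : RL.Lin (base F)} (hψ : ψ.smooth) (σ : ℂ ≃+* ℂ) :
    StarkEq ψ.fn σ ↔ RL.Eventually fun ℓ : Lvl F => defct ℓ σ ψ.fn = 1 := by
  have hc := RL.smooth_char hψ
  have h1 := (RL.A_ne (Pool.Agent.Q20.RS.fin_base (K := F)) hc).and
    (RL.A_ne Pool.Agent.Q20.RS.fin_base (RL.conj_character hc σ))
  constructor
  · intro h
    refine (h1.and h).mono fun ℓ hℓ => ?_
    unfold defct
    have h2 : σ (ℓ.A ψ.fn) = ℓ.A (conj σ ψ.fn) := hℓ.2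
    rw [h2]
    exact div_self hℓ.1.2
  · intro h
    refine (h1.and h).mono fun ℓ hℓ => ?_
    have h2 : σ (ℓ.A ψ.fn) / ℓ.A (conj σ ψ.fn) = 1 := hℓ.2
    rwa [div_eq_one_iff_eq hℓ.1.2] at h2

/-- **The family.** -/
theorem exists_fam {S : Finset ℕ} (hS : ∀ q ∈ S, q.Prime) {N : ℕ} (hN : N ≠ 0) :
    ∃ 𝔈 : FieldFam F, 𝔈.Large S N ∧ ∀ (K : Type) [Field K] [NumberField K] [Algebra F K]
      [IsGalois F K] (χ : (K ≃ₐ[F] K) →* ℂˣ) (σ : ℂ ≃+* ℂ), 𝔈.RelAt χ σ ↔ StarkChar χ σ := by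
  obtain ⟨ι, hι, E, hb, n, hE, hL, hψ⟩ := exists_formula (F := F) hS hN
  refine ⟨@FieldFam.mk F _ _ ι hι E hb hE n, hL, fun K _ _ _ _ χ σ => ?_⟩
  constructor
  · intro h j Ψ hΨ
    have hs : Ψ.smooth := smooth_of_infl j hΨ
    rw [starkEq_iff_defct hs]
    refine ((hψ Ψ hs σ).and (h j Ψ hΨ)).mono fun ℓ hℓ => ?_
    exact hℓ.1.trans hℓ.2
  · intro h j Ψ hΨ
    have hs : Ψ.smooth := smooth_of_infl j hΨ
    have h1 := (starkEq_iff_defct hs σ).1 (h j Ψ hΨ)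
    refine ((hψ Ψ hs σ).and h1).mono fun ℓ hℓ => ?_
    exact hℓ.1.symm.trans hℓ.2

theorem star_of_pow {K : Type} [Field K] [NumberField K] [Algebra F K]
    {χ : (K ≃ₐ[F] K) →* ℂˣ} {σ : ℂ ≃+* ℂ} (h1 : StarkCharPow 1 χ σ) : StarkChar χ σ := by
  intro j Ψ hΨ
  obtain ⟨N₀, hN₀, h2⟩ := h1 j Ψ hΨ
  refine ⟨N₀, hN₀, fun ℓ hℓ => ?_⟩
  have h3 : σ (ℓ.A Ψ.fn) ^ 1 = ℓ.A (conj σ Ψ.fn) ^ 1 := h2 ℓ hℓ
  rw [pow_one, pow_one] at h3
  exact h3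

/-- Stark's equality over `F` from `Q1` over the extensions with prescribed local degrees -/
theorem star_local {S : Finset ℕ} (hS : ∀ q ∈ S, q.Prime) {D : ℕ → Set ℕ}
    (hD : ∀ q ∈ S, ∀ d ∈ D q, ∀ n : ℕ, 0 < n → d * n ∈ D q)
    (hD' : ∀ q ∈ S, ∀ g : ℕ, (∀ d ∈ D q, g ∣ d) → g = 1)
    (h : ∀ (E : Type) [Field E] [NumberField E] [Algebra F E], LocIn S D E → Q1Cyc E)
    {K : Type} [Field K] [NumberField K] [Algebra F K] [IsGalois F K]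
    (χ : (K ≃ₐ[F] K) →* ℂˣ) (σ : ℂ ≃+* ℂ) : StarkChar χ σ := by
  refine star_of_pow (pow_of_law (e := 1) (fun P hP hPE => ?_) χ σ)
  rw [Nat.cast_one]
  refine Pool.Agent.Q223.LD.loc_law hP hS hD hD' (fun E _ _ _ hE => ?_) F
  exact hPE E fun E₁ _ _ _ ⟨e⟩ => h E₁ (locIn_equiv hD e hE)

/-- Stark's equality over `F` from `Q1` over radical extensions -/
theorem star_radical {p₁ p₂ : ℕ} (hp₁ : p₁.Prime) (hp₂ : p₂.Prime) (hne : p₁ ≠ p₂) {T : Set ℕ}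
    (hpr : ∀ l ∈ T, l.Prime) (hinf : T.Infinite) (k : ℕ)
    (h : ∀ (E : Type) [Field E] [NumberField E] [Algebra F E] (p : ℕ), p = p₁ ∨ p = p₂ →
      IsRadical T p F E → p ^ k ∣ Module.finrank F E → Q1Cyc E)
    {K : Type} [Field K] [NumberField K] [Algebra F K] [IsGalois F K]
    (χ : (K ≃ₐ[F] K) →* ℂˣ) (σ : ℂ ≃+* ℂ) : StarkChar χ σ := by
  refine star_of_pow (pow_of_law (e := 1) (fun P hP hPE => ?_) χ σ)
  have key : ∀ p : ℕ, p.Prime → (p = p₁ ∨ p = p₂) → P F ((p ^ k : ℕ) : ℤ) := by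
    intro p hp hpp
    have hf : Fact p.Prime := ⟨hp⟩
    refine Pool.Agent.Q5.VL.gen_radical_law' hP p hpr hinf k fun E _ _ _ hr hd => ?_
    refine hPE E fun E₁ _ _ _ ⟨e⟩ => h E₁ p hpp (isRadical_equiv e hr) ?_
    rwa [e.toLinearEquiv.finrank_eq]
  rw [Nat.cast_one]
  refine Pool.Agent.Q5.VL.one_of_gcd hP F (D := {p₁ ^ k, p₂ ^ k}) (fun g hg => ?_) ?_
  · have h1 : (p₁ ^ k).Coprime (p₂ ^ k) := Nat.Coprime.pow _ _ ((Nat.coprime_primes hp₁ hp₂).2 hne)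
    exact Nat.eq_one_of_dvd_coprimes h1 (hg _ (Set.mem_insert _ _))
      (hg _ (Set.mem_insert_of_mem _ rfl))
  · rintro d (rfl | rfl)
    · exact key p₁ hp₁ (Or.inl rfl)
    · exact key p₂ hp₂ (Or.inr rfl)

end

section
variable (F : Type) [Field F] [NumberField F] (P : Prop)

theorem locSuf_of (S : Finset ℕ) (hS : ∀ q ∈ S, q.Prime)
    (h : (∀ (K : Type) [Field K] [NumberField K] [Algebra F K] [IsGalois F K]
      (χ : (K ≃ₐ[F] K) →* ℂˣ) (σ : ℂ ≃+* ℂ), StarkChar χ σ) → P) : LocSuf F S P :=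
  fun _ hD hD' hQ => h fun _ _ _ _ _ χ σ => star_local hS hD hD' hQ χ σ

theorem radSuf_of
    (h : (∀ (K : Type) [Field K] [NumberField K] [Algebra F K] [IsGalois F K]
      (χ : (K ≃ₐ[F] K) →* ℂˣ) (σ : ℂ ≃+* ℂ), StarkChar χ σ) → P) : RadSuf F P :=
  fun _ _ k _ h₁ h₂ hne hpr hinf hQ => h fun _ _ _ _ _ χ σ =>
    star_radical h₁ h₂ hne hpr hinf k hQ χ σ

end

end Pool.Agent.Q92.SF
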