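import Pool.Agent.Q92.SF.Main
import Pool.Agent.Q20.SI.Rel

/-! The fields which suffice: rank one, mixed signature, coefficients. -/

set_option autoImplicit false
set_option linter.unusedSectionVars false

namespace Pool.Agent.Q92.SF

open NumberField Pool.Agent.Q20.RS Pool.Agent.Q20.SI Pool.Agent.Q92.SD

section
variable {S : Finset ℕ} (hS : ∀ q ∈ S, q.Prime) {F : Type} [Field F] [NumberField F]

include hS in
theorem one_fam {N : ℕ} (hN : N ≠ 0) :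
    ∃ 𝔈 : FieldFam F, 𝔈.Large S N ∧ ∀ (K : Type) [Field K] [NumberField K] [Algebra F K]
      [IsGalois F K] (D : RankOneData F K), D.Q1 ↔ ∀ χ : (K ≃ₐ[F] K) →* ℂˣ, D.Exact χ →
        (∃ g, χ g ≠ 1) → ∀ σ : ℂ ≃+* ℂ, 𝔈.RelAt χ σ := by
  obtain ⟨𝔈, h1, h2⟩ := exists_fam (F := F) hS hN
  refine ⟨𝔈, h1, fun K _ _ _ _ D => ?_⟩
  rw [one_iff D]
  exact forall_congr' fun χ => imp_congr_right fun _ => imp_congr_right fun _ =>
    forall_congr' fun σ => (h2 K χ σ).symm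

include hS in
theorem mix_fam {N : ℕ} (hN : N ≠ 0) :
    ∃ 𝔈 : FieldFam F, 𝔈.Large S N ∧ ∀ (K : Type) [Field K] [NumberField K] [Algebra F K]
      [IsGalois F K] (D : MixData F K),
      (D.Q1 ↔ ∀ σ : ℂ ≃+* ℂ, (∀ g, σ (cf D.χ g) = cf D.χ g) → 𝔈.RelAt D.χ σ) ∧
      (D.Q1Conj ↔ ∀ σ : ℂ ≃+* ℂ, 𝔈.RelAt D.χ σ) := by
  obtain ⟨𝔈, h1, h2⟩ := exists_fam (F := F) hS hN
  refine ⟨𝔈, h1, fun K _ _ _ _ D => ⟨?_, ?_⟩⟩
  · rw [mix_iff D]
    exact forall_congr' fun σ => imp_congr_right fun _ => (h2 K D.χ σ).symm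
  · rw [mix_iff_conj D]
    exact forall_congr' fun σ => (h2 K D.χ σ).symm

include hS in
theorem part_fam {N : ℕ} (hN : N ≠ 0) :
    ∃ 𝔈 : FieldFam F, 𝔈.Large S N ∧ ∀ (K : Type) [Field K] [NumberField K] [Algebra F K]
      [IsGalois F K] (D : PartData F K), D.Q1 ↔ ∀ ψ : (K ≃ₐ[F] K) →* ℂˣ, D.Exact ψ →
        ∀ σ : ℂ ≃+* ℂ, (∀ z ∈ D.E, σ z = z) → 𝔈.RelAt ψ σ := by
  obtain ⟨𝔈, h1, h2⟩ := exists_fam (F := F) hS hN
  refine ⟨𝔈, h1, fun K _ _ _ _ D => ?_⟩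
  rw [part_iff D]
  exact forall_congr' fun ψ => imp_congr_right fun _ => forall_congr' fun σ =>
    imp_congr_right fun _ => (h2 K ψ σ).symm

end

end Pool.Agent.Q92.SF
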