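import Pool.Agent.Q92.SF.Main
import Pool.Agent.Q280.SI.Raym
import Pool.Agent.Q280.SI.Atrm
import Pool.Agent.Q280.SI.Monm

/-! The fields which suffice: real quadratic fields, fields with one complex place. -/

set_option autoImplicit false
set_option linter.unusedSectionVars false

namespace Pool.Agent.Q92.SF

open NumberField Pool.Agent.Q20.RS Pool.Agent.Q20.SI Pool.Agent.Q92.SD Pool.Agent.Q280.SI

section
variable {F K : Type} [Field F] [NumberField F] [Field K] [NumberField K] [Algebra F K]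
  [IsGalois F K]

theorem st_iff (χ : (K ≃ₐ[F] K) →* ℂˣ) : St χ ↔ ∀ σ : ℂ ≃+* ℂ, StarkChar χ σ :=
  ⟨fun h σ j Ψ hΨ => h j Ψ hΨ σ, fun h j Ψ hΨ σ => h σ j Ψ hΨ⟩

theorem atr_star (D : AtrData F K) (h1 : 1 ≤ InfinitePlace.nrRealPlaces F)
    (hC : InfinitePlace.nrComplexPlaces F = 1) :
    D.Q1 ↔ ∀ χ : (K ≃ₐ[F] K) →* ℂˣ, D.Exact χ → ∀ σ : ℂ ≃+* ℂ, StarkChar χ σ := by
  rw [atr_iff D h1 hC]
  exact forall_congr' fun χ => imp_congr_right fun _ => st_iff χ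

theorem ray_star (D : RayData F K) (hF : Module.finrank ℚ F = 2) :
    (toRank D).Q1 ↔ ∀ χ : (K ≃ₐ[F] K) →* ℂˣ, D.Exact χ → ∀ σ : ℂ ≃+* ℂ, StarkChar χ σ := by
  rw [one_iff_all]
  refine forall_congr' fun χ => ?_
  rw [rank_exact D hF χ]
  refine imp_congr_right fun hex => ⟨fun h => h ?_, fun h _ => h⟩
  obtain ⟨P, hP⟩ := exists_prime D
  obtain ⟨g, -, hg⟩ := hex.2 P ((mem_primes D).1 hP)
  exact ⟨g, hg⟩

theorem mon_star (D : Level F K) (hF : Module.finrank ℚ F = 2) :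
    D.Q1 ↔ ∀ χ : (K ≃ₐ[F] K) →* ℂˣ, χ D.c ≠ 1 → ∀ σ : ℂ ≃+* ℂ, StarkChar χ σ :=
  ⟨fun h χ hχ => (st_iff χ).1 (st_of_mon D hF h χ hχ),
    fun h => mon_of_st D hF fun χ hχ => (st_iff χ).2 (h χ hχ)⟩

end

section
variable {S : Finset ℕ} (hS : ∀ q ∈ S, q.Prime) {F : Type} [Field F] [NumberField F]

include hS in
theorem atr_fam (h1 : 1 ≤ InfinitePlace.nrRealPlaces F)
    (hC : InfinitePlace.nrComplexPlaces F = 1) {N : ℕ} (hN : N ≠ 0) :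
    ∃ 𝔈 : FieldFam F, 𝔈.Large S N ∧ ∀ (K : Type) [Field K] [NumberField K] [Algebra F K]
      [IsGalois F K] (D : AtrData F K), D.Q1 ↔ ∀ χ : (K ≃ₐ[F] K) →* ℂˣ, D.Exact χ →
        ∀ σ : ℂ ≃+* ℂ, 𝔈.RelAt χ σ := by
  obtain ⟨𝔈, hL, h2⟩ := exists_fam (F := F) hS hN
  refine ⟨𝔈, hL, fun K _ _ _ _ D => ?_⟩
  rw [atr_star D h1 hC]
  exact forall_congr' fun χ => imp_congr_right fun _ => forall_congr' fun σ => (h2 K χ σ).symm

include hS in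
theorem ray_fam (hF : Module.finrank ℚ F = 2) {N : ℕ} (hN : N ≠ 0) :
    ∃ 𝔈 : FieldFam F, 𝔈.Large S N ∧ ∀ (K : Type) [Field K] [NumberField K] [Algebra F K]
      [IsGalois F K] (D : RayData F K), D.Q1 ↔ ∀ χ : (K ≃ₐ[F] K) →* ℂˣ, D.Exact χ →
        ∀ σ : ℂ ≃+* ℂ, 𝔈.RelAt χ σ := by
  obtain ⟨𝔈, hL, h2⟩ := exists_fam (F := F) hS hN
  refine ⟨𝔈, hL, fun K _ _ _ _ D => ?_⟩
  rw [q1_iff_rank D hF, ray_star D hF]
  exact forall_congr' fun χ => imp_congr_right fun _ => forall_congr' fun σ => (h2 K χ σ).symm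

include hS in
theorem sq_fam (hF : Module.finrank ℚ F = 2) {N : ℕ} (hN : N ≠ 0) :
    ∃ 𝔈 : FieldFam F, 𝔈.Large S N ∧ ∀ (K : Type) [Field K] [NumberField K] [Algebra F K]
      [IsGalois F K] (D : RayData F K), D.Q1Sq ↔ ∀ χ : (K ≃ₐ[F] K) →* ℂˣ, D.Exact χ →
        ∀ σ : ℂ ≃+* ℂ, 𝔈.RelAt χ σ := by
  obtain ⟨𝔈, hL, h2⟩ := exists_fam (F := F) hS hN
  refine ⟨𝔈, hL, fun K _ _ _ _ D => ?_⟩
  rw [sq_iff_rank D hF, ray_star D hF]
  exact forall_congr' fun χ => imp_congr_right fun _ => forall_congr' fun σ => (h2 K χ σ).symm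

include hS in
theorem mon_fam (hF : Module.finrank ℚ F = 2) {N : ℕ} (hN : N ≠ 0) :
    ∃ 𝔈 : FieldFam F, 𝔈.Large S N ∧ ∀ (K : Type) [Field K] [NumberField K] [Algebra F K]
      [IsGalois F K] (D : Level F K), D.Q1 ↔ ∀ χ : (K ≃ₐ[F] K) →* ℂˣ, χ D.c ≠ 1 →
        ∀ σ : ℂ ≃+* ℂ, 𝔈.RelAt χ σ := by
  obtain ⟨𝔈, hL, h2⟩ := exists_fam (F := F) hS hN
  refine ⟨𝔈, hL, fun K _ _ _ _ D => ?_⟩
  rw [mon_star D hF]
  exact forall_congr' fun χ => imp_congr_right fun _ => forall_congr' fun σ => (h2 K χ σ).symm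

end

end Pool.Agent.Q92.SF
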